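import Pool.Agent.helper95.OR.Main

set_option autoImplicit false

namespace Pool.Agent.Results.MP_b85e99_co.SharpExponent

/-- Every two-colouring of the pairs of the ordered vertex set `{0, ..., N-1}` contains an
order-preserving copy of the `t`-th power of the monotone path on `n` vertices with all edges
of one colour. -/
def Arrow (t n N : ℕ) : Prop :=
  ∀ c : ℕ → ℕ → Bool, ∃ b : Bool, ∃ f : Fin n → ℕ, StrictMono f ∧ (∀ i, f i < N) ∧
    ∀ i j : Fin n, i < j → (j : ℕ) ≤ (i : ℕ) + t → c (f i) (f j) = b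

/-- The ordered Ramsey number of the `t`-th power of the monotone path on `n` vertices. -/
noncomputable def orderedRamsey (t n : ℕ) : ℕ := sInf {N : ℕ | Arrow t n N}

theorem arrow_mono {t n N N' : ℕ} (h : Arrow t n N) (hN : N ≤ N') : Arrow t n N' := by
  intro c
  obtain ⟨b, f, h1, h2, h3⟩ := h c
  exact ⟨b, f, h1, fun i => (h2 i).trans_le hN, h3⟩

theorem result (t : ℕ) (ht : 1 ≤ t) :
    ∀ δ : ℝ, 0 < δ → ∃ K : ℝ, ∀ n : ℕ, 1 ≤ n →
      IsLeast {N : ℕ | Arrow t n N} (orderedRamsey t n) ∧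
      (n - 1) ^ 2 + 1 ≤ orderedRamsey t n ∧
      (orderedRamsey t n : ℝ) ≤ K * (n : ℝ) ^ (2 + δ) := by
  intro δ hδ
  obtain ⟨C, hC, hCb⟩ := Pool.Agent.helper95.OR.upper (t := t) ht (δ := δ / 2) (by linarith)
  refine ⟨C * 2 ^ (2 + δ) + 1, ?_⟩
  intro n hn
  set X : ℝ := C * (Pool.Agent.helper95.OR.gr (δ / 2) n * Pool.Agent.helper95.OR.gr (δ / 2) n)
    with hX
  have hX0 : 0 ≤ X := by
    have := Pool.Agent.helper95.OR.gr_one_le (δ := δ / 2) (by linarith) n
    rw [hX]; positivity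
  have harr : Arrow t n (⌊X⌋₊ + 1) := by
    intro c
    by_contra hcon
    push Not at hcon
    have h1 := hCb n (⌊X⌋₊ + 1) c (by
      rintro b ⟨f, h1, h2, h3⟩
      obtain ⟨i, j, hij, hjt, hne⟩ := hcon b f h1 h2
      exact hne (h3 i j hij hjt))
    rw [← hX] at h1
    have h2 := Nat.lt_floor_add_one X
    push_cast at h1
    linarith
  have hne : {N : ℕ | Arrow t n N}.Nonempty := ⟨_, harr⟩
  have hleast : IsLeast {N : ℕ | Arrow t n N} (orderedRamsey t n) :=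
    ⟨Nat.sInf_mem hne, fun N hN => Nat.sInf_le hN⟩
  refine ⟨hleast, ?_, ?_⟩
  · by_contra hcon
    push Not at hcon
    obtain ⟨c, hc⟩ := Pool.Agent.helper95.OR.lower (t := t) (n := n) ht hn
    obtain ⟨b, f, h1, h2, h3⟩ := arrow_mono hleast.1 (Nat.lt_succ_iff.1 hcon) c
    exact hc b ⟨f, h1, h2, h3⟩
  · have h1 : (orderedRamsey t n : ℝ) ≤ X + 1 := by
      have h2 : orderedRamsey t n ≤ ⌊X⌋₊ + 1 := hleast.2 harr
      have h3 : ((orderedRamsey t n : ℕ) : ℝ) ≤ ((⌊X⌋₊ + 1 : ℕ) : ℝ) := by exact_mod_cast h2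
      push_cast at h3
      have h4 := Nat.floor_le hX0
      linarith
    have hn1 : (1 : ℝ) ≤ n := by exact_mod_cast hn
    have h2 : X ≤ C * 2 ^ (2 + δ) * (n : ℝ) ^ (2 + δ) := by
      rw [hX, mul_assoc]
      apply mul_le_mul_of_nonneg_left _ hC
      unfold Pool.Agent.helper95.OR.gr
      rw [← Real.rpow_add (by positivity), ← Real.mul_rpow (by norm_num) (by positivity)]
      rw [show 1 + δ / 2 + (1 + δ / 2) = 2 + δ by ring]
      apply Real.rpow_le_rpow (by positivity) (by linarith) (by linarith)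
    have h3 : (1 : ℝ) ≤ (n : ℝ) ^ (2 + δ) := Real.one_le_rpow hn1 (by linarith)
    calc (orderedRamsey t n : ℝ) ≤ X + 1 := h1
      _ ≤ C * 2 ^ (2 + δ) * (n : ℝ) ^ (2 + δ) + (n : ℝ) ^ (2 + δ) := add_le_add h2 h3
      _ = (C * 2 ^ (2 + δ) + 1) * (n : ℝ) ^ (2 + δ) := by ring

end Pool.Agent.Results.MP_b85e99_co.SharpExponent
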